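import Pool.Agent.H37.CTT.Stmts

set_option autoImplicit false

namespace Pool.CND

open Finset Polynomial Matrix

namespace SC13X

theorem umrM (hUMR : S_UMR) (p : ℕ) (k F L G : Type) [Field k] [IsAlgClosed k] [Field F]
    [Algebra F k] [Field L] [Algebra k L] [Group G] [Fintype G] (f q D1 : ℕ) (P : Place k L)
    (ρ : G →* (L ≃ₐ[k] L)) (M : Subgroup G) (c : G → Fin 2 → F) (Z : Fin 2 → L) (v s0 s1 : L)
    (κ : k) (hp : p.Prime) (hp2 : p ≠ 2) (hchar : CharP k p) (hf : 1 ≤ f) (hq : q = p ^ f)
    (hF : Nat.card F = q) (hinj : Function.Injective ρ) (hM : ∀ g ∈ M, g ∈ ram P ρ 1)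
    (hc1 : ∀ g ∈ M, g = 1 ↔ c g = 0) (hc : ∀ g ∈ M, ∀ h ∈ M, c (g * h) = c g + c h)
    (hZ : ∀ g ∈ M, ∀ i, ρ g (Z i) = Z i + cst k F L (c g i)) (hv : ∀ g ∈ M, ρ g v = v)
    (hZ0 : Z 0 ^ q - Z 0 = s0) (hZ1 : Z 1 ^ q - Z 1 = -s1) (hκ : κ ≠ 0)
    (hs0 : P.Ge (s0 - algebraMap k L κ * v ^ (2 * q)) 0)
    (hs1 : P.Ge (s1 - algebraMap k L κ * v ^ q) 0) (hv0 : v ≠ 0)
    (hord : P.ord v = -((D1 * Nat.card M : ℕ) : ℤ)) (hD1 : 1 ≤ D1) (hpD : ¬ p ∣ D1) :
    Nat.card M = q ^ 2 ∧ (∀ u : Fin 2 → F, ∃ g ∈ M, c g = u) ∧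
      ∃ l : ℤ, IsLst (fun g => P.b (ρ g)) M l ∧
        U (fun g => P.b (ρ g)) M l = ((2 * D1 : ℕ) : ℚ) := by
  classical
  have : Fact p.Prime := ⟨hp⟩
  have hcL : CharP L p := charP_of_injective_algebraMap (algebraMap k L).injective p
  have hq0 : 0 < q := by
    rw [hq]
    exact pow_pos hp.pos f
  have hMpos : 0 < Nat.card M := Nat.card_pos
  have hordneg : P.ord v < 0 := by
    rw [hord]
    have : 0 < D1 * Nat.card M := Nat.mul_pos hD1 hMpos
    omega
  have hkey := hUMR p k F L G f q 2 (2 * D1) P ρ M ⊥ c Z (fun a => if a 0 = 0 then D1 else 2 * D1)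
    hp hchar hf hq hF (by norm_num) hinj hM bot_le
    (fun g hg => by rw [Subgroup.mem_bot]; exact hc1 g hg) hc hZ (by
      intro a ha
      have hroot : ∀ x : k, ∃ y : k, y ^ q = x := by
        intro x
        obtain ⟨y, hy⟩ := IsAlgClosed.exists_pow_nat_eq x hq0
        exact ⟨y, hy⟩
      obtain ⟨b0, hb0⟩ := hroot (κ * algebraMap F k (a 0))
      obtain ⟨b1, hb1⟩ := hroot (κ * algebraMap F k (a 1))
      obtain ⟨w, hw⟩ : ∃ w : L, w = algebraMap k L b0 * v ^ 2 - algebraMap k L b1 * v := ⟨_, rfl⟩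
      have hwq : w ^ q = algebraMap k L κ * cst k F L (a 0) * v ^ (2 * q) -
          algebraMap k L κ * cst k F L (a 1) * v ^ q := by
        have e0 : (algebraMap k L b0) ^ q = algebraMap k L κ * cst k F L (a 0) := by
          rw [← map_pow, hb0, map_mul]
        have e1 : (algebraMap k L b1) ^ q = algebraMap k L κ * cst k F L (a 1) := by
          rw [← map_pow, hb1, map_mul]
        rw [hw, ← e0, ← e1, hq, sub_pow_char_pow]
        ring
      -- the order of w
      have hwo : w ≠ 0 ∧ P.ord w = -(((if a 0 = 0 then D1 else 2 * D1) * Nat.card M : ℕ) : ℤ) := by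
        by_cases h0 : a 0 = 0
        · have ha1 : a 1 ≠ 0 := by
            intro h1
            apply ha
            funext i
            fin_cases i
            · exact h0
            · exact h1
          have hb0' : b0 = 0 := by
            rw [h0, map_zero, mul_zero] at hb0
            exact pow_eq_zero_iff hq0.ne' |>.mp hb0
          have hb1' : b1 ≠ 0 := by
            intro h
            rw [h, zero_pow hq0.ne'] at hb1
            have h2 := mul_ne_zero hκ (by rw [Ne, map_eq_zero]; exact ha1 : algebraMap F k (a 1) ≠ 0)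
            exact h2 hb1.symm
          have hL : algebraMap k L b1 ≠ 0 := by
            rw [Ne, map_eq_zero]
            exact hb1'
          have hw' : w = -(algebraMap k L b1 * v) := by
            rw [hw, hb0', map_zero, zero_mul, zero_sub]
          rw [if_pos h0, hw', P.ord_neg, P.ord_mul _ _ hL hv0, P.ord_const _ hb1', zero_add]
          exact ⟨neg_ne_zero.2 (mul_ne_zero hL hv0), hord⟩
        · have hb0' : b0 ≠ 0 := by
            intro h
            rw [h, zero_pow hq0.ne'] at hb0
            have h2 := mul_ne_zero hκ (by rw [Ne, map_eq_zero]; exact h0 : algebraMap F k (a 0) ≠ 0)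
            exact h2 hb0.symm
          have hL : algebraMap k L b0 ≠ 0 := by
            rw [Ne, map_eq_zero]
            exact hb0'
          have hv2 : v ^ 2 ≠ 0 := pow_ne_zero 2 hv0
          have ho : P.ord (algebraMap k L b0 * v ^ 2) = 2 * P.ord v := by
            rw [P.ord_mul _ _ hL hv2, P.ord_const _ hb0', P.ord_pow hv0]
            push_cast
            ring
          have hge : P.Ge (-(algebraMap k L b1 * v)) (P.ord (algebraMap k L b0 * v ^ 2) + 1) := by
            rw [ho]
            have h3 := P.ge_mul (P.ge_const b1) (P.ge_ord v)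
            rw [zero_add] at h3
            exact P.ge_neg (P.ge_mono h3 (by linarith))
          obtain ⟨h4, h5⟩ := P.ord_add_of_lt (mul_ne_zero hL hv2) hge
          rw [if_neg h0, hw, sub_eq_add_neg]
          refine ⟨h4, ?_⟩
          rw [h5, ho, hord]
          push_cast
          ring
      have hDa : 1 ≤ (if a 0 = 0 then D1 else 2 * D1) ∧ ¬ p ∣ (if a 0 = 0 then D1 else 2 * D1) ∧
          (if a 0 = 0 then D1 else 2 * D1) ≤ 2 * D1 := by
        by_cases h0 : a 0 = 0
        · rw [if_pos h0]
          exact ⟨hD1, hpD, by omega⟩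
        · rw [if_neg h0]
          refine ⟨by omega, ?_, le_rfl⟩
          intro h
          rcases (Nat.Prime.dvd_mul hp).1 h with h | h
          · exact hp2 ((Nat.prime_dvd_prime_iff_eq hp Nat.prime_two).1 h)
          · exact hpD h
      refine ⟨hDa.1, hDa.2.1, hDa.2.2, ∑ i ∈ range f, w ^ p ^ i, ?_, ?_⟩
      · intro g hg
        have hwf : ρ g w = w := by
          rw [hw, map_sub, map_mul, map_mul, map_pow, hv g hg, AlgEquiv.commutes,
            AlgEquiv.commutes]
        rw [map_sum]
        refine Finset.sum_congr rfl fun i _ => ?_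
        rw [map_pow, hwf]
      · have htel : (∑ i ∈ range f, w ^ p ^ i) ^ p - ∑ i ∈ range f, w ^ p ^ i = w ^ q - w := by
          have h1 : (∑ i ∈ range f, w ^ p ^ i) ^ p = ∑ i ∈ range f, w ^ p ^ (i + 1) := by
            rw [sum_pow_char]
            refine Finset.sum_congr rfl fun i _ => ?_
            rw [← pow_mul, ← pow_succ]
          rw [h1, ← Finset.sum_sub_distrib, Finset.sum_range_sub (fun i => w ^ p ^ i) f, hq]
          simp
        have hsum : ∑ i, cst k F L (a i) * (Z i ^ q - Z i) -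
            ((∑ i ∈ range f, w ^ p ^ i) ^ p - ∑ i ∈ range f, w ^ p ^ i) =
            w + (cst k F L (a 0) * (s0 - algebraMap k L κ * v ^ (2 * q)) -
              cst k F L (a 1) * (s1 - algebraMap k L κ * v ^ q)) := by
          rw [htel, hwq, Fin.sum_univ_two, hZ0, hZ1]
          ring
        have hge : P.Ge (cst k F L (a 0) * (s0 - algebraMap k L κ * v ^ (2 * q)) -
              cst k F L (a 1) * (s1 - algebraMap k L κ * v ^ q)) (P.ord w + 1) := by
          have h1 := P.ge_mul (P.ge_const (algebraMap F k (a 0))) hs0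
          have h2 := P.ge_mul (P.ge_const (algebraMap F k (a 1))) hs1
          rw [zero_add] at h1 h2
          refine P.ge_mono (P.ge_sub h1 h2) ?_
          rw [hwo.2]
          have : 0 < (if a 0 = 0 then D1 else 2 * D1) * Nat.card M :=
            Nat.mul_pos hDa.1 hMpos
          omega
        obtain ⟨h3, h4⟩ := P.ord_add_of_lt hwo.1 hge
        rw [hsum]
        exact ⟨h3, by rw [h4, hwo.2]⟩)
  obtain ⟨h1, h2, -, h4⟩ := hkey
  refine ⟨?_, h2, ?_⟩
  · rw [h1, Subgroup.card_bot, mul_one]
  · refine h4 rfl ⟨![1, 0], ?_, ?_⟩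
    · intro h
      have := congrFun h 0
      simp at this
    · have : (![1, 0] : Fin 2 → F) 0 ≠ 0 := by simp
      simp

end SC13X

end Pool.CND
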