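import Pool.Agent.H37.CTT.Stmts

set_option autoImplicit false

namespace Pool.CND

open Finset Polynomial Matrix

theorem sc11_thm (h3 : S_SC3) (h7 : S_SC7) (h10 : S_SC10) (hg : S_SG3) : S_SC11 := by
  intro p k F _ _ _ _ f q hp hp2 hchar hf hq hF
  have hq0 : q ≠ 0 := by
    rw [hq]
    exact pow_ne_zero f hp.ne_zero
  have hfin : Finite F := Nat.finite_of_card_ne_zero (by rw [hF]; exact hq0)
  obtain ⟨L, iL, iA, t, X, G₀, ρ, P, hR, hC, hG, hO⟩ := h3 p k F f q hp hp2 hchar hf hq hF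
  have hirr := h7 p k F L f q t X G₀ ρ P hp hp2 hchar hf hq hF hR hC hO
  obtain ⟨hs, hcond⟩ := h10 p k F L f q t X G₀ ρ P hp hp2 hchar hf hq hF hR hC hG hO
  have hE : G₀ = Sp4 F := hg F G₀ hG hirr hs
  subst hE
  exact ⟨L, iL, iA, ρ, t, hC.cov, P, hO.neg, hcond⟩

end Pool.CND
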